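import Pool.Agent.Q7.LK.Stm
import Pool.Agent.Y682.Lcl

/-!
# Project LK, job CPL: `p`-th powers in the completions
-/

set_option autoImplicit false

namespace Pool.Agent.Q285.LK

open NumberField IsDedekindDomain Pool.Agent.Q7.LK Pool.Agent.Y682

section

variable {F : Type} [Field F] [NumberField F] (v : HeightOneSpectrum (𝓞 F))

theorem cpl_coe (a : F) : (a : v.adicCompletion F) = algebraMap F (v.adicCompletion F) a := by
  rw [HeightOneSpectrum.algebraMap_adicCompletion]
  rfl

theorem vv_nat (n : ℕ) : vv v (n : v.adicCompletion F) ≤ 1 := by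
  have e : (n : v.adicCompletion F) = algebraMap F _ (algebraMap (𝓞 F) F n) := by
    rw [map_natCast, map_natCast]
  rw [e, vv_coe]
  exact v.valuation_le_one _

/-- differences of powers of integral elements -/
theorem vv_pow_sub {y z : v.adicCompletion F} (hy : vv v y ≤ 1) (hz : vv v z ≤ 1) (n : ℕ) :
    vv v (y ^ n - z ^ n) ≤ vv v (y - z) := by
  induction n with
  | zero =>
    rw [pow_zero, pow_zero, sub_self, map_zero]
    exact zero_le
  | succ n ih =>
    have e : y ^ (n + 1) - z ^ (n + 1) = y * (y ^ n - z ^ n) + (y - z) * z ^ n := by ring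
    rw [e]
    refine (Valuation.map_add _ _ _).trans (max_le ?_ ?_)
    · rw [map_mul]
      exact (mul_le_of_le_one_left' hy).trans ih
    · rw [map_mul, map_pow]
      exact mul_le_of_le_one_right' (pow_le_one' hz n)

/-- differences of powers of small elements -/
theorem vv_pow_sub' {c y z : v.adicCompletion F} (hc : vv v c ≤ 1) (hy : vv v y ≤ vv v c)
    (hz : vv v z ≤ vv v c) (n : ℕ) :
    vv v (y ^ (n + 2) - z ^ (n + 2)) ≤ vv v c * vv v (y - z) := by
  have e : y ^ (n + 2) - z ^ (n + 2) = y * (y ^ (n + 1) - z ^ (n + 1)) + z ^ n * (z * (y - z)) := by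
    ring
  rw [e]
  refine (Valuation.map_add _ _ _).trans (max_le ?_ ?_)
  · rw [map_mul]
    exact mul_le_mul' hy (vv_pow_sub v (hy.trans hc) (hz.trans hc) _)
  · rw [map_mul, map_pow, map_mul]
    exact (mul_le_of_le_one_left' (pow_le_one' (hz.trans hc) n)).trans (mul_le_mul' hz le_rfl)

/-- elements close to `1` are `p`-th powers -/
theorem exists_proot {p : ℕ} (hp : 2 ≤ p) (t : v.adicCompletion F)
    (ht : vv v t < vv v ((p : v.adicCompletion F) ^ 2)) : ∃ y : v.adicCompletion F, y ^ p = 1 + t := by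
  obtain ⟨q, rfl⟩ := Nat.exists_eq_add_of_le' hp
  set P : v.adicCompletion F := ((q + 2 : ℕ) : v.adicCompletion F) with hP
  have h4 : P ^ 2 ≠ 0 := by
    intro h
    rw [h, map_zero] at ht
    exact not_lt_zero ht
  have hv4 : vv v (P ^ 2) ≠ 0 := (Valuation.ne_zero_iff _).2 h4
  set c := t / P ^ 2 with hc
  have hc1 : vv v c < 1 := by
    rw [hc, map_div₀]
    exact (div_lt_one₀ (zero_lt_iff.2 hv4)).2 ht
  let s : Set (v.adicCompletion F) := {y | ‖y‖ ≤ ‖c‖}
  have hs : IsComplete s := (isClosed_le continuous_norm continuous_const).isComplete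
  let g : v.adicCompletion F → v.adicCompletion F := fun y =>
    ∑ m ∈ Finset.range (q + 1), P ^ m * (((q + 2).choose (m + 2) : ℕ) : v.adicCompletion F) *
      y ^ (m + 2)
  let T : v.adicCompletion F → v.adicCompletion F := fun y => c - g y
  have hg : ∀ y z, vv v y ≤ vv v c → vv v z ≤ vv v c →
      vv v (g y - g z) ≤ vv v c * vv v (y - z) := by
    intro y z hy hz
    simp only [g]
    rw [← Finset.sum_sub_distrib]
    refine Valuation.map_sum_le _ fun m _ => ?_
    rw [← mul_sub, map_mul, map_mul, map_pow]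
    refine (mul_le_of_le_one_left' ?_).trans (vv_pow_sub' v hc1.le hy hz m)
    exact mul_le_one' (pow_le_one' (vv_nat v _) _) (vv_nat v _)
  have hg0 : g 0 = 0 := by
    simp only [g]
    refine Finset.sum_eq_zero fun m _ => ?_
    rw [zero_pow (by omega), mul_zero]
  have hmaps : Set.MapsTo T s s := by
    intro y hy
    have h1 : vv v y ≤ vv v c := (norm_le_iff v _ _).1 hy
    change ‖T y‖ ≤ ‖c‖
    rw [norm_le_iff]
    refine (Valuation.map_sub _ _ _).trans (max_le le_rfl ?_)
    have h2 := hg y 0 h1 (by rw [map_zero]; exact zero_le)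
    rw [hg0, sub_zero, sub_zero] at h2
    exact h2.trans (mul_le_of_le_one_right' (h1.trans hc1.le))
  have hcn : ‖c‖ < 1 := by
    rw [← norm_one (α := v.adicCompletion F), ← not_le, norm_le_iff, not_le, map_one]
    exact hc1
  have hcon : ContractingWith ⟨‖c‖, norm_nonneg _⟩ (hmaps.restrict T s s) := by
    refine ⟨by exact_mod_cast hcn, ?_⟩
    apply LipschitzWith.of_dist_le_mul
    rintro ⟨y, hy⟩ ⟨z, hz⟩
    change dist (T y) (T z) ≤ ‖c‖ * dist y z
    have h1 : vv v y ≤ vv v c := (norm_le_iff v _ _).1 hy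
    have h2 : vv v z ≤ vv v c := (norm_le_iff v _ _).1 hz
    rw [dist_eq_norm, dist_eq_norm, ← norm_mul, norm_le_iff, map_mul]
    have h3 : T y - T z = g z - g y := by simp only [T]; ring
    rw [h3, ← Valuation.map_sub_swap]
    exact hg y z h1 h2
  have hcs : c ∈ s := le_refl ‖c‖
  obtain ⟨y, hys, hy, -⟩ := hcon.exists_fixedPoint' hs hmaps hcs (edist_ne_top _ _)
  have h2 : c - g y = y := hy
  refine ⟨P * y + 1, ?_⟩
  have h3 : c * P ^ 2 = t := div_mul_cancel₀ t h4
  have h5 : (P * y + 1) ^ (q + 2) = P ^ 2 * g y + P ^ 2 * y + 1 := by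
    rw [add_pow, Finset.sum_range_succ', Finset.sum_range_succ']
    simp only [g]
    rw [Finset.mul_sum]
    have e1 : ∑ k ∈ Finset.range (q + 1), (P * y) ^ (k + 1 + 1) * 1 ^ (q + 2 - (k + 1 + 1)) *
        (((q + 2).choose (k + 1 + 1) : ℕ) : v.adicCompletion F) =
        ∑ m ∈ Finset.range (q + 1), P ^ 2 * (P ^ m *
          (((q + 2).choose (m + 2) : ℕ) : v.adicCompletion F) * y ^ (m + 2)) := by
      refine Finset.sum_congr rfl fun m _ => ?_
      rw [one_pow]
      ring
    rw [e1]
    have e2 : (P * y) ^ (0 + 1) * 1 ^ (q + 2 - (0 + 1)) *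
        (((q + 2).choose (0 + 1) : ℕ) : v.adicCompletion F) = P ^ 2 * y := by
      rw [one_pow, zero_add, pow_one, Nat.choose_one_right, ← hP]
      ring
    rw [e2]
    simp
  rw [h5]
  linear_combination (-P ^ 2) * h2 + h3

end

theorem cpl : S_BAS → S_CPL := by
  intro hBAS p hp F _ _ v a
  have hp0 : (p : v.adicCompletion F) ≠ 0 := by
    have e : (p : v.adicCompletion F) = algebraMap F _ (p : F) := by rw [map_natCast]
    rw [e]
    exact (map_ne_zero _).2 (by exact_mod_cast hp.out.ne_zero)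
  rw [cpl_coe]
  constructor
  · intro h
    refine ⟨((hBAS p F v).1 a h).1, ?_⟩
    have h40 : vv v ((p : v.adicCompletion F) ^ 2) ≠ 0 :=
      (Valuation.ne_zero_iff _).2 (pow_ne_zero 2 hp0)
    set k : ℤ := WithZero.log (vv v ((p : v.adicCompletion F) ^ 2)) with hk0
    have hk : vv v ((p : v.adicCompletion F) ^ 2) = WithZero.exp k := (WithZero.exp_log h40).symm
    obtain ⟨x, hx⟩ := h k.natAbs
    have hle : WithZero.exp (-((k.natAbs : ℕ) : ℤ)) ≤ vv v ((p : v.adicCompletion F) ^ 2) := by
      rw [hk]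
      exact WithZero.exp_le_exp.2 (by omega)
    have h41 : vv v ((p : v.adicCompletion F) ^ 2) ≤ 1 := by
      rw [map_pow]
      exact pow_le_one' (vv_nat v p) 2
    have h1 : v.valuation F (a * x ^ p - 1) < 1 := hx.trans_le (hle.trans h41)
    have hbx : a * x ^ p ≠ 0 := by
      intro h0
      rw [h0, zero_sub, Valuation.map_neg, map_one] at h1
      exact lt_irrefl _ h1
    have hx0 : x ≠ 0 := by
      rintro rfl
      exact hbx (by rw [zero_pow hp.out.ne_zero, mul_zero])
    obtain ⟨y, hy⟩ := exists_proot v hp.out.two_le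
      (algebraMap F (v.adicCompletion F) (a * x ^ p - 1)) (by
      rw [vv_coe]
      exact hx.trans_le hle)
    have hx1 : algebraMap F (v.adicCompletion F) x ≠ 0 := (map_ne_zero _).2 hx0
    refine ⟨y / algebraMap F (v.adicCompletion F) x, ?_⟩
    rw [div_pow, hy, map_sub, map_mul, map_pow, map_one, add_sub_cancel,
      mul_div_cancel_right₀ _ (pow_ne_zero _ hx1)]
  · rintro ⟨hb, s, hs⟩ n
    have hb1 : algebraMap F (v.adicCompletion F) a ≠ 0 := (map_ne_zero _).2 hb
    have hs0 : s ≠ 0 := by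
      rintro rfl
      apply hb1
      rw [hs, zero_pow hp.out.ne_zero]
    have hvs : vv v s ≠ 0 := (Valuation.ne_zero_iff _).2 hs0
    obtain ⟨x, hx⟩ := exists_approx v s⁻¹ (WithZero.exp (-(n : ℤ)) / vv v s)
      (div_ne_zero WithZero.exp_ne_zero hvs)
    refine ⟨x, ?_⟩
    rw [← vv_coe]
    set X := algebraMap F (v.adicCompletion F) x with hX
    have h1 : vv v (s * (X - s⁻¹)) < WithZero.exp (-(n : ℤ)) := by
      rw [map_mul, mul_comm]
      exact (lt_div_iff₀ (zero_lt_iff.2 hvs)).1 hx
    have h2 : vv v (s * (X - s⁻¹)) ≤ 1 := h1.le.trans (by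
      rw [← WithZero.exp_zero]
      exact WithZero.exp_le_exp.2 (by omega))
    have e1 : s * (X - s⁻¹) = s * X - 1 := by
      rw [mul_sub, mul_inv_cancel₀ hs0]
    have h3 : vv v (s * X) ≤ 1 := by
      have e2 : s * X = s * (X - s⁻¹) + 1 := by
        rw [e1]
        ring
      rw [e2]
      exact (Valuation.map_add _ _ _).trans (max_le h2 (by rw [map_one]))
    have e : algebraMap F (v.adicCompletion F) (a * x ^ p - 1) = (s * X) ^ p - 1 ^ p := by
      rw [map_sub, map_mul, map_pow, map_one, hs, ← hX, mul_pow, one_pow]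
    rw [e]
    refine lt_of_le_of_lt (vv_pow_sub v h3 (by rw [map_one]) p) ?_
    rw [← e1]
    exact h1

end Pool.Agent.Q285.LK
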