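import Pool.Agent.Q7.LK.Stm

/-!
# Project LK, job HS1N: norms at inert primes of a Kummer extension
-/

set_option autoImplicit false

namespace Pool.Agent.Q285.LK

open NumberField IsDedekindDomain Pool.Agent.Q7.LK Polynomial

/-- powers of a root of an irreducible `X ^ p - c` are linearly independent -/
theorem res_field {k l : Type} [Field k] [CommRing l] [IsDomain l] [Algebra k l] {p : ℕ}
    (hp : p.Prime) {c : k} (hc : ∀ b : k, b ^ p ≠ c) {r : l} (hr : r ^ p = algebraMap k l c)
    (a : Fin p → k) (h : ∑ i, algebraMap k l (a i) * r ^ (i : ℕ) = 0) : ∀ i, a i = 0 := by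
  have hirr : Irreducible (X ^ p - C c : k[X]) := X_pow_sub_C_irreducible_of_prime hp hc
  have hmin : (X ^ p - C c : k[X]) = minpoly k r := by
    refine minpoly.eq_of_irreducible_of_monic hirr ?_ (monic_X_pow_sub_C _ hp.ne_zero)
    rw [map_sub, map_pow, aeval_X, aeval_C, hr, sub_self]
  set f : k[X] := ∑ i : Fin p, C (a i) * X ^ (i : ℕ) with hf
  have hf0 : aeval r f = 0 := by
    rw [hf, map_sum, ← h]
    refine Finset.sum_congr rfl fun i _ => ?_
    rw [map_mul, map_pow, aeval_X, aeval_C]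
  have hdvd := minpoly.dvd k r hf0
  rw [← hmin] at hdvd
  have hdeg : f.degree < (X ^ p - C c : k[X]).degree := by
    rw [degree_X_pow_sub_C hp.pos, hf]
    refine (degree_sum_le _ _).trans_lt ?_
    rw [Finset.sup_lt_iff (by exact_mod_cast WithBot.bot_lt_coe p)]
    intro i _
    refine (degree_C_mul_X_pow_le _ _).trans_lt ?_
    exact_mod_cast i.2
  have hfz : f = 0 := by
    by_contra hne
    exact absurd (degree_le_of_dvd hdvd hne) (not_le.2 hdeg)
  intro i
  have h1 : f.coeff i = a i := by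
    rw [hf, finsetSum_coeff]
    simp only [coeff_C_mul, coeff_X_pow]
    rw [Finset.sum_eq_single i]
    · simp
    · intro j _ hj
      rw [if_neg, mul_zero]
      exact fun h => hj (Fin.ext h.symm)
    · intro hi
      exact absurd (Finset.mem_univ i) hi
  rw [← h1, hfz, coeff_zero]

theorem res_ring {R l : Type} [CommRing R] [CommRing l] [IsDomain l] (φ : R →+* l) (I : Ideal R)
    (hI : I.IsMaximal) (hk : ∀ x, φ x = 0 ↔ x ∈ I) {p : ℕ} (hp : p.Prime) {c : R}
    (hc : ∀ b : R, b ^ p - c ∉ I) {r : l} (hr : r ^ p = φ c) (a : Fin p → R)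
    (h : ∑ i, φ (a i) * r ^ (i : ℕ) = 0) : ∀ i, a i ∈ I := by
  let _ := Ideal.Quotient.field I
  let ψ : R ⧸ I →+* l := Ideal.Quotient.lift I φ fun x hx => (hk x).2 hx
  let _ : Algebra (R ⧸ I) l := ψ.toAlgebra
  have hψ : ∀ x, algebraMap (R ⧸ I) l (Ideal.Quotient.mk I x) = φ x := fun x =>
    Ideal.Quotient.lift_mk _ _ _
  have h1 := res_field (k := R ⧸ I) (l := l) hp (c := Ideal.Quotient.mk I c) (r := r) (by
    intro b hb
    obtain ⟨b, rfl⟩ := Ideal.Quotient.mk_surjective b
    apply hc b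
    rw [← Ideal.Quotient.eq_zero_iff_mem, map_sub, map_pow, hb, sub_self])
    (by rw [hψ, hr]) (fun i => Ideal.Quotient.mk I (a i)) (by
      rw [← h]
      exact Finset.sum_congr rfl fun i _ => by rw [hψ])
  exact fun i => Ideal.Quotient.eq_zero_iff_mem.1 (h1 i)

section

variable {F M : Type} {Γ Γ' : Type} [Field F] [Field M] [Algebra F M]
  [LinearOrderedCommGroupWithZero Γ] [LinearOrderedCommGroupWithZero Γ']

/-- The valuation of a combination of the powers of a root. -/
theorem gauss (val : Valuation F Γ) (w : Valuation M Γ')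
    (hle : ∀ x, val x ≤ 1 → w (algebraMap F M x) ≤ 1)
    (hlt : ∀ x, w (algebraMap F M x) < 1 ↔ val x < 1) {p : ℕ} (hp : p.Prime) {c : F}
    (hc1 : val c ≤ 1) (hc : ∀ t : F, ¬ val (t ^ p - c) < 1) {ρ : M}
    (hρ : ρ ^ p = algebraMap F M c) (a : Fin p → F) (ha : ∀ i, val (a i) ≤ 1)
    (h : w (∑ i, algebraMap F M (a i) * ρ ^ (i : ℕ)) < 1) : ∀ i, val (a i) < 1 := by
  have hρ1 : w ρ ≤ 1 := by
    have h1 : w ρ ^ p ≤ 1 := by
      rw [← map_pow, hρ]
      exact hle c hc1
    exact (pow_le_one_iff hp.ne_zero).1 h1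
  let j : val.valuationSubring →+* w.valuationSubring :=
    ((algebraMap F M).comp val.valuationSubring.subtype).codRestrict w.valuationSubring.toSubring
      fun x => hle x.1 x.2
  let φ : val.valuationSubring →+* IsLocalRing.ResidueField w.valuationSubring :=
    (IsLocalRing.residue w.valuationSubring).comp j
  have hk : ∀ x, φ x = 0 ↔ x ∈ IsLocalRing.maximalIdeal val.valuationSubring := by
    intro x
    rw [Valuation.mem_maximalIdeal_iff, ← hlt]
    exact (IsLocalRing.residue_eq_zero_iff _).trans (Valuation.mem_maximalIdeal_iff M w)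
  have h1 := res_ring φ _ (IsLocalRing.maximalIdeal.isMaximal _) hk hp
    (c := ⟨c, hc1⟩) (r := IsLocalRing.residue w.valuationSubring ⟨ρ, hρ1⟩) (by
      intro b hb
      rw [Valuation.mem_maximalIdeal_iff] at hb
      exact hc b.1 hb) (by
      rw [← map_pow]
      exact congrArg _ (Subtype.ext hρ)) (fun i => ⟨a i, ha i⟩) (by
      have h2 : ∑ i, φ ⟨a i, ha i⟩ * IsLocalRing.residue w.valuationSubring ⟨ρ, hρ1⟩ ^ (i : ℕ) =
          IsLocalRing.residue w.valuationSubring (∑ i, j ⟨a i, ha i⟩ * ⟨ρ, hρ1⟩ ^ (i : ℕ)) := by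
        rw [map_sum]
        refine Finset.sum_congr rfl fun i _ => ?_
        rw [map_mul, map_pow]
        rfl
      rw [h2, IsLocalRing.residue_eq_zero_iff, Valuation.mem_maximalIdeal_iff]
      refine lt_of_eq_of_lt ?_ h
      congr 1
      rw [← ValuationSubring.subtype_apply, map_sum]
      refine Finset.sum_congr rfl fun i _ => ?_
      rw [map_mul, map_pow]
      rfl)
  intro i
  exact (Valuation.mem_maximalIdeal_iff F val).1 (h1 i)

/-- Scaling of a nonzero vector. -/
theorem scale (val : Valuation F Γ) {p : ℕ} {a : Fin p → F} (ha : a ≠ 0) :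
    ∃ s : F, s ≠ 0 ∧ (∀ i, val (s * a i) ≤ 1) ∧ ∃ i, val (s * a i) = 1 := by
  obtain ⟨i₁, hi₁⟩ := Function.ne_iff.1 ha
  obtain ⟨i, -, hi⟩ := Finset.exists_max_image Finset.univ (fun i => val (a i))
    ⟨i₁, Finset.mem_univ _⟩
  have h0 : a i ≠ 0 := by
    intro h0
    have h1 := hi i₁ (Finset.mem_univ _)
    rw [h0, map_zero] at h1
    exact hi₁ ((Valuation.zero_iff _).1 (le_antisymm h1 zero_le))
  have hv : val (a i) ≠ 0 := (Valuation.ne_zero_iff _).2 h0
  refine ⟨(a i)⁻¹, inv_ne_zero h0, fun j => ?_, i, ?_⟩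
  · rw [map_mul, map_inv₀]
    have h1 := mul_le_mul_right (hi j (Finset.mem_univ _)) (val (a i))⁻¹
    rwa [inv_mul_cancel₀ hv] at h1
  · rw [inv_mul_cancel₀ h0, map_one]

end

/-- The norm at an inert prime, for a unit `c`. -/
theorem norm_unit {p : ℕ} (hp : p.Prime) {F M : Type} [Field F] [NumberField F] [Field M]
    [NumberField M] [Algebra F M] {ζ c : F} (hζ : IsPrimitiveRoot ζ p) (hk : Kum p F M c)
    (v : HeightOneSpectrum (𝓞 F)) (hc1 : v.valuation F c = 1)
    (hc : ∀ t : F, ¬ v.valuation F (t ^ p - c) < 1) {y : M} (hy : y ≠ 0) :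
    ∃ s : F, s ≠ 0 ∧ v.valuation F (s ^ p * Algebra.norm F y) = 1 := by
  obtain ⟨hdeg, ρ, hρ⟩ := hk
  have hv : v.asIdeal.IsMaximal := v.isMaximal
  obtain ⟨P, hP, hPv⟩ := Ideal.exists_maximal_ideal_liesOver_of_isIntegral (S := 𝓞 M) v.asIdeal
  have hPb : P ≠ ⊥ := by
    rintro rfl
    apply v.ne_bot
    rw [hPv.over, Ideal.under_bot]
  let w : HeightOneSpectrum (𝓞 M) := ⟨P, hP.isPrime, hPb⟩
  have hwv : w.asIdeal.LiesOver v.asIdeal := hPv
  set e := v.asIdeal.ramificationIdx' w.asIdeal with he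
  have hval : ∀ x : F, w.valuation M (algebraMap F M x) = v.valuation F x ^ e := fun x =>
    (HeightOneSpectrum.valuation_liesOver M v w x).symm
  have he0 : e ≠ 0 := by
    intro h0
    have h1 := hval 0
    rw [h0, pow_zero, map_zero, map_zero] at h1
    exact zero_ne_one h1
  have hle : ∀ x : F, v.valuation F x ≤ 1 → w.valuation M (algebraMap F M x) ≤ 1 := by
    intro x hx
    rw [hval]
    exact pow_le_one' hx _
  have hlt : ∀ x : F, w.valuation M (algebraMap F M x) < 1 ↔ v.valuation F x < 1 := by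
    intro x
    rw [hval]
    exact pow_lt_one_iff he0
  have key : ∀ ρ' : M, ρ' ^ p = algebraMap F M c → ∀ a : Fin p → F,
      (∀ i, v.valuation F (a i) ≤ 1) → (∃ i, v.valuation F (a i) = 1) →
      w.valuation M (∑ i, algebraMap F M (a i) * ρ' ^ (i : ℕ)) = 1 := by
    intro ρ' hρ' a ha hai
    have hρ1 : w.valuation M ρ' ≤ 1 := by
      have h1 : w.valuation M ρ' ^ p ≤ 1 := by
        rw [← map_pow, hρ']
        exact hle c hc1.le
      exact (pow_le_one_iff hp.ne_zero).1 h1
    refine le_antisymm ?_ (not_lt.1 fun h => ?_)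
    · refine Valuation.map_sum_le _ fun i _ => ?_
      rw [map_mul, map_pow]
      exact mul_le_one' (hle _ (ha i)) (pow_le_one' hρ1 _)
    · obtain ⟨i, hi⟩ := hai
      have h1 := gauss (v.valuation F) (w.valuation M) hle hlt hp hc1.le hc hρ' a ha h i
      rw [hi] at h1
      exact lt_irrefl _ h1
  -- the powers of `ρ` are a basis
  have hlin : LinearIndependent F fun i : Fin p => ρ ^ (i : ℕ) := by
    rw [Fintype.linearIndependent_iff]
    intro a ha
    by_contra hne
    have ha0 : a ≠ 0 := fun h => hne fun i => by rw [h]; rfl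
    obtain ⟨s, hs0, hs1, hs2⟩ := scale (v.valuation F) ha0
    have h1 := key ρ hρ (fun i => s * a i) hs1 hs2
    have h2 : ∑ i, algebraMap F M (s * a i) * ρ ^ (i : ℕ) = 0 := by
      have h3 : ∑ i, algebraMap F M (s * a i) * ρ ^ (i : ℕ) =
          algebraMap F M s * ∑ i, a i • ρ ^ (i : ℕ) := by
        rw [Finset.mul_sum]
        refine Finset.sum_congr rfl fun i _ => ?_
        rw [Algebra.smul_def, map_mul, mul_assoc]
      rw [h3, ha, mul_zero]
    rw [h2, map_zero] at h1
    exact zero_ne_one h1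
  have hne : Nonempty (Fin p) := ⟨⟨0, hp.pos⟩⟩
  have : FiniteDimensional F M := Module.finite_of_finrank_pos (by rw [hdeg]; exact hp.pos)
  let b := basisOfLinearIndependentOfCardEqFinrank hlin (by rw [Fintype.card_fin, hdeg])
  have hb : ∀ y : M, y = ∑ i, algebraMap F M (b.repr y i) * ρ ^ (i : ℕ) := by
    intro y
    conv_lhs => rw [← b.sum_repr y]
    refine Finset.sum_congr rfl fun i _ => ?_
    rw [Algebra.smul_def]
    congr 1
    exact congrFun (coe_basisOfLinearIndependentOfCardEqFinrank hlin _) i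
  -- the extension is Galois
  have htop : IntermediateField.adjoin F {ρ} = ⊤ := by
    rw [eq_top_iff]
    intro y _
    rw [hb y]
    refine sum_mem fun i _ => mul_mem (algebraMap_mem _ _) (pow_mem ?_ _)
    exact IntermediateField.mem_adjoin_simple_self F ρ
  have hρ2 : ρ ^ Module.finrank F M = algebraMap F M c := by rw [hdeg, hρ]
  have hK : (primitiveRoots (Module.finrank F M) F).Nonempty := by
    rw [hdeg]
    exact ⟨ζ, (mem_primitiveRoots hp.pos).2 hζ⟩
  have hirr := irreducible_X_pow_sub_C_of_root_adjoin_eq_top hρ2 htop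
  have hspl : IsSplittingField F M (X ^ Module.finrank F M - C c) :=
    isSplittingField_X_pow_sub_C_of_root_adjoin_eq_top hK hρ2 htop
  have hgal : IsGalois F M := isGalois_of_isSplittingField_X_pow_sub_C hK hirr M
  -- the norm
  have ha0 : (fun i => b.repr y i) ≠ 0 := by
    intro h
    apply hy
    rw [hb y]
    refine Finset.sum_eq_zero fun i _ => ?_
    have h1 : b.repr y i = 0 := congrFun h i
    rw [h1, map_zero, zero_mul]
  obtain ⟨s, hs0, hs1, hs2⟩ := scale (v.valuation F) ha0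
  refine ⟨s, hs0, ?_⟩
  have h1 : s ^ p * Algebra.norm F y = Algebra.norm F (algebraMap F M s * y) := by
    rw [map_mul, Algebra.norm_algebraMap, hdeg]
  have h2 : ∀ σ : M ≃ₐ[F] M, w.valuation M (σ (algebraMap F M s * y)) = 1 := by
    intro σ
    have h3 : σ (algebraMap F M s * y) =
        ∑ i, algebraMap F M (s * b.repr y i) * (σ ρ) ^ (i : ℕ) := by
      conv_lhs => rw [hb y]
      rw [map_mul, map_sum, AlgEquiv.commutes, Finset.mul_sum]
      refine Finset.sum_congr rfl fun i _ => ?_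
      rw [map_mul, map_pow, AlgEquiv.commutes, map_mul, mul_assoc]
    rw [h3]
    refine key (σ ρ) ?_ _ hs1 hs2
    rw [← map_pow, hρ, AlgEquiv.commutes]
  have h4 : w.valuation M (algebraMap F M (s ^ p * Algebra.norm F y)) = 1 := by
    rw [h1, Algebra.norm_eq_prod_automorphisms, map_prod]
    exact Finset.prod_eq_one fun σ _ => h2 σ
  rw [hval] at h4
  exact (pow_left_inj₀ zero_le zero_le he0).1 (by rw [h4, one_pow])

theorem hs1n : S_BAS → S_HS1N := by
  intro hBAS p hp hp2 F M _ _ _ _ _ ζ c hζ hc0 hk v hv hvc hsy y hy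
  obtain ⟨b1, b2, b3, b4, b5, b6, b7⟩ := hBAS p F v
  obtain ⟨-, -, -, b8⟩ := b7 hv ζ hζ
  have hnl : ¬ Lpw p v c := fun h => hsy ((b8 c hc0 hvc).2 h)
  have hvp : v.valuation F ((p : F) ^ 2) = 1 := by
    have h1 : v.valuation F (algebraMap (𝓞 F) F (p : 𝓞 F)) = 1 := by
      refine le_antisymm (v.valuation_le_one _) (not_lt.1 fun h => ?_)
      rw [v.valuation_lt_one_iff_mem] at h
      exact hv h
    rw [map_natCast] at h1
    rw [map_pow, h1, one_pow]
  -- make `c` a unit
  have hvc0 : v.valuation F c ≠ 0 := (Valuation.ne_zero_iff _).2 hc0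
  obtain ⟨ϖ, hϖ⟩ := v.valuation_exists_uniformizer F
  have hϖ0 : ϖ ≠ 0 := by
    rintro rfl
    rw [map_zero] at hϖ
    exact WithZero.exp_ne_zero hϖ.symm
  have hdv : (p : ℤ) ∣ WithZero.log (v.valuation F c) := by
    rw [← ZMod.intCast_zmod_eq_zero_iff_dvd]
    have h1 : -((WithZero.log (v.valuation F c) : ℤ) : ZMod p) = 0 := hvc
    rwa [neg_eq_zero] at h1
  obtain ⟨k, hk1⟩ := hdv
  set x : F := ϖ ^ k with hx
  have hx0 : x ≠ 0 := zpow_ne_zero _ hϖ0
  have hcx : v.valuation F (c * x ^ p) = 1 := by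
    rw [map_mul, map_pow, hx, map_zpow₀, hϖ, ← WithZero.exp_log hvc0, hk1, ← WithZero.exp_zsmul,
      ← WithZero.exp_nsmul, ← WithZero.exp_add, ← WithZero.exp_zero]
    congr 1
    simp only [smul_eq_mul, nsmul_eq_mul]
    ring
  have hk' : Kum p F M (c * x ^ p) := by
    obtain ⟨hdeg, ρ, hρ⟩ := hk
    exact ⟨hdeg, ρ * algebraMap F M x, by rw [mul_pow, hρ, map_mul, map_pow]⟩
  have hcx' : ∀ t : F, ¬ v.valuation F (t ^ p - c * x ^ p) < 1 := by
    intro t ht
    have ht1 : v.valuation F (t ^ p) = 1 := by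
      have h1 := (v.valuation F).map_add_eq_of_lt_left (x := c * x ^ p) (y := t ^ p - c * x ^ p)
        (by rw [hcx]; exact ht)
      rwa [add_sub_cancel, hcx] at h1
    have ht0 : t ≠ 0 := by
      rintro rfl
      rw [zero_pow hp.out.ne_zero, map_zero] at ht1
      exact zero_ne_one ht1
    apply hnl
    refine b6 c (x / t) ?_
    rw [hvp]
    have h2 : c * (x / t) ^ p - 1 = -((t ^ p - c * x ^ p) / t ^ p) := by
      have := pow_ne_zero p ht0
      rw [div_pow]
      field_simp
      ring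
    rw [h2, Valuation.map_neg, map_div₀, ht1, div_one]
    exact ht
  obtain ⟨s, hs0, hs1⟩ := norm_unit hp.out hζ hk' v hcx hcx' hy
  have hN : Algebra.norm F y ≠ 0 := by
    intro h
    rw [h, mul_zero, map_zero] at hs1
    exact zero_ne_one hs1
  have h1 := b5 (s ^ p) (Algebra.norm F y) (pow_ne_zero _ hs0) hN
  rw [(b1 _ (b3 s hs0)).2, zero_add] at h1
  rw [← h1]
  unfold vl
  rw [hs1, WithZero.log_one]
  simp

end Pool.Agent.Q285.LK
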