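import Pool.Agent.Q7.LK.Stm
import Pool.Agent.Q96.LQ.LOC

/-!
# Project LK, job LOC: the number of the classes modulo `Nn p y`
-/

set_option autoImplicit false

namespace Pool.Agent.Q285.LK

open NumberField IsDedekindDomain Pool.Agent.Q7.LK
open Pool.Agent.Q283.LQ (Sm nS)
open Pool.Agent.Q96.LQ (prod_bound finS)

theorem liesOver_of_mem {F : Type} [Field F] [NumberField F] {p : ℕ} (hp : p.Prime)
    (v : HeightOneSpectrum (𝓞 F)) (hv : Dp p v) :
    v.asIdeal.LiesOver (Ideal.span {(p : ℤ)}) := by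
  constructor
  have h1 : (Ideal.span {(p : ℤ)}).IsMaximal :=
    ((Ideal.span_singleton_prime (by exact_mod_cast hp.ne_zero)).2
      (Nat.prime_iff_prime_int.1 hp)).isMaximal (by
        rw [Ne, Ideal.span_singleton_eq_bot]
        exact_mod_cast hp.ne_zero)
  refine h1.eq_of_le ?_ ?_
  · have := v.isPrime
    exact Ideal.IsPrime.ne_top (Ideal.IsPrime.under ℤ v.asIdeal)
  · rw [Ideal.span_singleton_le_iff_mem, Ideal.mem_comap]
    unfold Dp at hv
    simpa using hv

/-- The sum of the local degrees. -/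
theorem sum_dv (p : ℕ) [hp : Fact p.Prime] {F : Type} [Field F] [NumberField F]
    (T : Finset (HeightOneSpectrum (𝓞 F))) : ∑ v ∈ T, dv p v ≤ Module.finrank ℚ F := by
  classical
  have hP : (Ideal.span {(p : ℤ)}).IsPrime :=
    (Ideal.span_singleton_prime (by exact_mod_cast hp.out.ne_zero)).2
      (Nat.prime_iff_prime_int.1 hp.out)
  have hfin : Fintype ((Ideal.span {(p : ℤ)}).primesOver (𝓞 F)) :=
    (Algebra.QuasiFinite.finite_primesOver _).fintype
  rw [← RingOfIntegers.rank F,
    ← Ideal.sum_ramification_inertia_eq_finrank (Ideal.span {(p : ℤ)}) (𝓞 F)]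
  have h1 : ∑ v ∈ T, dv p v = ∑ v ∈ T.filter (fun v => Dp p v),
      v.asIdeal.ramificationIdx ℤ * v.asIdeal.inertiaDeg ℤ := by
    rw [Finset.sum_filter]
    rfl
  rw [h1, ← Finset.sum_attach]
  set g : {v // v ∈ T.filter (fun v => Dp p v)} → (Ideal.span {(p : ℤ)}).primesOver (𝓞 F) :=
    fun v => ⟨v.1.asIdeal, v.1.isPrime, liesOver_of_mem hp.out v.1 (Finset.mem_filter.1 v.2).2⟩
    with hg
  have hgi : Function.Injective g := by
    intro v w h
    have h2 : v.1.asIdeal = w.1.asIdeal := congrArg Subtype.val h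
    exact Subtype.ext (HeightOneSpectrum.ext h2)
  have h2 : ∑ v ∈ (T.filter (fun v => Dp p v)).attach,
      v.1.asIdeal.ramificationIdx ℤ * v.1.asIdeal.inertiaDeg ℤ =
      ∑ q ∈ (T.filter (fun v => Dp p v)).attach.image g,
        q.1.ramificationIdx ℤ * q.1.inertiaDeg ℤ := by
    rw [Finset.sum_image (fun a _ b _ h => hgi h)]
  rw [h2]
  exact Finset.sum_le_sum_of_subset (Finset.subset_univ _)

theorem loc : S_BAS → S_LOCV → S_LOC := by
  classical
  intro hBAS hLOCV p hp hp2 F _ _ ζ hζ y hy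
  refine ⟨finS y, ?_⟩
  intro B h0 hB
  have hSfin := finS (F := F) y
  have hS : Fintype {v : HeightOneSpectrum (𝓞 F) // Sm y v} := hSfin.fintype
  let α := {b : F // b ≠ 0}
  let sv : {v : HeightOneSpectrum (𝓞 F) // Sm y v} → Setoid α := fun v =>
    { r := fun b b' => Lpw p v.1 (b.1 / b'.1)
      iseqv := by
        refine ⟨?_, ?_, ?_⟩
        · intro b
          have := (hBAS p F v.1).2.2.1 1 one_ne_zero
          rwa [one_pow, ← div_self b.2] at this
        · intro b b' h
          have := (hBAS p F v.1).2.2.2.1 _ h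
          rwa [inv_div] at this
        · intro b b' b'' h h'
          have := (hBAS p F v.1).2.1 _ _ h h'
          rwa [div_mul_div_cancel₀ b'.2] at this }
  let n : {v : HeightOneSpectrum (𝓞 F) // Sm y v} → ℕ := fun v => p ^ (2 + dv p v.1)
  have hn : ∀ i, ∀ B : Finset α, (∀ b ∈ B, ∀ b' ∈ B, b ≠ b' → ¬ (sv i) b b') → B.card ≤ n i := by
    intro v C hC
    have h1 := hLOCV p hp2 F ζ hζ v.1 (C.map (Function.Embedding.subtype _)) (by
      intro b hb
      rw [Finset.mem_map] at hb
      obtain ⟨b', _, rfl⟩ := hb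
      exact b'.2) (by
      intro b hb b' hb' hne
      rw [Finset.mem_map] at hb hb'
      obtain ⟨c, hc, rfl⟩ := hb
      obtain ⟨c', hc', rfl⟩ := hb'
      exact hC c hc c' hc' (fun h => hne (by rw [h])))
    rwa [Finset.card_map] at h1
  let B' : Finset α := B.subtype (fun b => b ≠ 0)
  have hB' : B'.card = B.card := by
    rw [Finset.card_subtype]
    congr 1
    rw [Finset.filter_eq_self]
    exact h0
  have h2 := prod_bound sv n hn B' (by
    intro b hb b' hb' hne hall
    rw [Finset.mem_subtype] at hb hb'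
    apply hB b.1 hb b'.1 hb' (fun h => hne (Subtype.ext h))
    exact ⟨div_ne_zero b.2 b'.2, fun v hv => hall ⟨v, hv⟩⟩)
  rw [hB'] at h2
  refine h2.trans ?_
  have h3 : ∏ v : {v : HeightOneSpectrum (𝓞 F) // Sm y v}, n v =
      p ^ (∑ v : {v : HeightOneSpectrum (𝓞 F) // Sm y v}, (2 + dv p v.1)) :=
    Finset.prod_pow_eq_pow_sum _ _ _
  rw [h3]
  refine Nat.pow_le_pow_right hp.out.pos ?_
  rw [Finset.sum_add_distrib, Finset.sum_const, Finset.card_univ, smul_eq_mul]
  have h4 : Fintype.card {v : HeightOneSpectrum (𝓞 F) // Sm y v} = nS F y := by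
    rw [nS, Nat.card_eq_fintype_card]
  have h5 := sum_dv p (Finset.univ.map
    (Function.Embedding.subtype (fun v : HeightOneSpectrum (𝓞 F) => Sm y v)))
  rw [Finset.sum_map] at h5
  have h6 : ∑ v : {v : HeightOneSpectrum (𝓞 F) // Sm y v}, dv p v.1 ≤ Module.finrank ℚ F := h5
  rw [h4]
  omega

end Pool.Agent.Q285.LK
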